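import Pool.Agent.W712.RP.Stm

set_option autoImplicit false
set_option linter.unusedSectionVars false

open MeasureTheory Set Filter Topology
open scoped ENNReal

namespace Pool.Agent.W712.RP
namespace MacAux

section basics

variable {E : Type} [NormedAddCommGroup E] [NormedSpace ℝ E] [FiniteDimensional ℝ E]
    [MeasurableSpace E] [BorelSpace E] (μ : Measure E) [μ.IsAddHaarMeasure] {L : Set E}

theorem mu_pos (hL : Body L) : μ L ≠ 0 := by
  have h := hL.interior_nonempty
  exact (Measure.measure_pos_of_nonempty_interior μ h).ne'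

theorem mu_fin (hL : Body L) : μ L ≠ ∞ := hL.compact.measure_lt_top.ne

theorem prob (hL : Body L) : IsProbabilityMeasure (unif μ L) := by
  constructor
  unfold unif
  rw [Measure.smul_apply, Measure.restrict_apply_univ, smul_eq_mul]
  exact ENNReal.inv_mul_cancel (mu_pos μ hL) (mu_fin μ hL)

theorem unif_apply (A : Set E) (hA : MeasurableSet A) :
    unif μ L A = (μ L)⁻¹ * μ (A ∩ L) := by
  unfold unif
  rw [Measure.smul_apply, Measure.restrict_apply hA, smul_eq_mul]

theorem closed_mac (hL : Body L) (c : ℝ) : IsClosed {p : E × E | p.2 ∈ Mac L p.1 c} := by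
  have hc : IsClosed L := hL.compact.isClosed
  have h1 : IsClosed {p : E × E | p.1 + c⁻¹ • (p.2 - p.1) ∈ L} :=
    hc.preimage (by fun_prop)
  have h2 : IsClosed {p : E × E | p.1 - c⁻¹ • (p.2 - p.1) ∈ L} :=
    hc.preimage (by fun_prop)
  exact h1.inter h2

theorem meas_mac (hL : Body L) (z : E) (c : ℝ) : MeasurableSet (Mac L z c) := by
  have h := (closed_mac hL c).measurableSet
  have h2 : MeasurableSet ((fun y : E => (z, y)) ⁻¹' {p : E × E | p.2 ∈ Mac L p.1 c}) :=
    (measurable_prodMk_left) h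
  exact h2

theorem meas_macP (hL : Body L) : Measurable (fun z => macP μ L z) := by
  have := prob μ hL
  have h := (closed_mac hL 1).measurableSet
  exact measurable_measure_prodMk_left (ν := unif μ L) h

theorem mac_one_sub (z : E) : Mac L z 1 ⊆ L := by
  rintro y ⟨h1, -⟩
  simpa using h1

theorem mu_mac (z : E) (c : ℝ) (hc : 0 < c) :
    μ (Mac L z c) = ENNReal.ofReal (c ^ Module.finrank ℝ E) * μ (Mac L z 1) := by
  have h : Mac L z c = AffineMap.homothety z c '' (Mac L z 1) := by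
    ext y
    constructor
    · rintro ⟨h1, h2⟩
      refine ⟨z + c⁻¹ • (y - z), ⟨?_, ?_⟩, ?_⟩
      · simpa using h1
      · simpa using h2
      · rw [AffineMap.homothety_apply]
        simp [smul_smul, hc.ne']
    · rintro ⟨w, ⟨h1, h2⟩, rfl⟩
      rw [AffineMap.homothety_apply]
      refine ⟨?_, ?_⟩
      · simpa [smul_smul, hc.ne'] using h1
      · simpa [smul_smul, hc.ne'] using h2
  rw [h, Measure.addHaar_image_homothety, abs_of_nonneg (by positivity)]

theorem unif_mac_le (hL : Body L) (z : E) (c : ℝ) (hc : 0 < c) :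
    unif μ L (Mac L z c) ≤ ENNReal.ofReal (c ^ Module.finrank ℝ E) * macP μ L z := by
  unfold macP
  rw [unif_apply μ _ (meas_mac hL z c), unif_apply μ _ (meas_mac hL z 1),
    inter_eq_self_of_subset_left (mac_one_sub z)]
  calc (μ L)⁻¹ * μ (Mac L z c ∩ L) ≤ (μ L)⁻¹ * μ (Mac L z c) := by
        gcongr; exact inter_subset_left
    _ = ENNReal.ofReal (c ^ Module.finrank ℝ E) * ((μ L)⁻¹ * μ (Mac L z 1)) := by
        rw [mu_mac μ z c hc]; ring

/-- The linear functional with kernel parallel to the hyperplane through `x`. -/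
noncomputable def lin {k : ℕ} (b : Module.Basis (Fin (k + 1)) ℝ E) (x : Fin (k + 1) → E) :
    E →L[ℝ] ℝ :=
  LinearMap.toContinuousLinearMap
    (b.det.toMultilinearMap.toLinearMap (Fin.cons (0 : E) (fun i : Fin k => x i.succ - x 0)) 0)

theorem lin_apply {k : ℕ} (b : Module.Basis (Fin (k + 1)) ℝ E) (x : Fin (k + 1) → E) (w : E) :
    lin b x w = b.det (Fin.cons w (fun i : Fin k => x i.succ - x 0)) := by
  unfold lin
  simp only [LinearMap.coe_toContinuousLinearMap']
  rw [MultilinearMap.toLinearMap_apply]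
  simp [Fin.update_cons_zero]

theorem side_eq {k : ℕ} (b : Module.Basis (Fin (k + 1)) ℝ E) (x : Fin (k + 1) → E) (y : E) :
    side b x y = lin b x y - lin b x (x 0) := by
  rw [← map_sub, lin_apply]; rfl

theorem lin_pt {k : ℕ} (b : Module.Basis (Fin (k + 1)) ℝ E) (x : Fin (k + 1) → E)
    (i : Fin (k + 1)) : lin b x (x i) = lin b x (x 0) := by
  have h : lin b x (x i - x 0) = 0 := by
    rw [lin_apply]
    refine Fin.cases ?_ (fun j => ?_) i
    · rw [sub_self]
      exact b.det.map_coord_zero 0 (by simp)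
    · exact b.det.map_eq_zero_of_eq _ (i := 0) (j := j.succ) (by simp) (Fin.succ_ne_zero j).symm
  rw [map_sub] at h
  linarith

theorem lin_ne {k : ℕ} (b : Module.Basis (Fin (k + 1)) ℝ E) (x : Fin (k + 1) → E)
    (hx : AffineIndependent ℝ x) : ∃ w, lin b x w ≠ 0 := by
  have h1 : LinearIndependent ℝ (fun i : Fin k => x i.succ - x 0) := by
    have h2 := (affineIndependent_iff_linearIndependent_vsub ℝ x 0).1 hx
    have h3 := h2.comp (fun i : Fin k => (⟨i.succ, Fin.succ_ne_zero i⟩ : {j // j ≠ (0 : Fin (k+1))}))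
      (by intro i j hij; simpa using hij)
    simpa [Function.comp_def] using h3
  have hfr : Module.finrank ℝ E = k + 1 := by
    rw [Module.finrank_eq_card_basis b]; simp
  have h4 : Submodule.span ℝ (range (fun i : Fin k => x i.succ - x 0)) ≠ ⊤ := by
    intro h5
    have h6 := finrank_span_eq_card h1
    rw [h5, finrank_top, hfr] at h6
    simp at h6
  obtain ⟨w, hw⟩ : ∃ w, w ∉ Submodule.span ℝ (range (fun i : Fin k => x i.succ - x 0)) := by
    by_contra hcon
    push Not at hcon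
    exact h4 (Submodule.eq_top_iff'.2 hcon)
  refine ⟨w, ?_⟩
  rw [lin_apply]
  have h7 : LinearIndependent ℝ (Fin.cons w (fun i : Fin k => x i.succ - x 0) : Fin (k+1) → E) :=
    linearIndependent_finCons.2 ⟨h1, hw⟩
  have h8 := Module.Basis.is_basis_iff_det b (v := (Fin.cons w (fun i : Fin k => x i.succ - x 0) : Fin (k+1) → E))
  have h9 : IsUnit (b.det (Fin.cons w (fun i : Fin k => x i.succ - x 0) : Fin (k+1) → E)) := by
    refine h8.1 ⟨h7, ?_⟩
    exact h7.span_eq_top_of_card_eq_finrank (by simp [hfr])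
  exact h9.ne_zero


theorem null_hyp (l : E →L[ℝ] ℝ) (hl : ∃ w, l w ≠ 0) (y₀ : E) : μ {y | l y = l y₀} = 0 := by
  have h1 : {y | l y = l y₀} = (fun y => y + (-y₀)) ⁻¹' (LinearMap.ker (l : E →ₗ[ℝ] ℝ) : Set E) := by
    ext y
    simp [sub_eq_zero, ← sub_eq_add_neg]
  rw [h1, measure_preimage_add_right]
  apply Measure.addHaar_submodule
  intro h
  obtain ⟨w, hw⟩ := hl
  have : w ∈ LinearMap.ker (l : E →ₗ[ℝ] ℝ) := by rw [h]; trivial
  exact hw (by simpa using this)

theorem unif_ac {A : Set E} (h : μ A = 0) : unif μ L A = 0 := by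
  unfold unif
  rw [Measure.smul_apply, smul_eq_mul,
    (Measure.absolutelyContinuous_of_le Measure.restrict_le_self) h, mul_zero]

theorem closed_G (hL : Body L) (k : ℕ) (c : ℝ) :
    IsClosed {p : (Fin (k+1) → E) × E | ∀ i, p.1 i ∈ Mac L p.2 c} := by
  have h : {p : (Fin (k+1) → E) × E | ∀ i, p.1 i ∈ Mac L p.2 c} =
      ⋂ i, (fun p : (Fin (k+1) → E) × E => (p.2, p.1 i)) ⁻¹' {p : E × E | p.2 ∈ Mac L p.1 c} := by
    ext p
    simp
  rw [h]
  exact isClosed_iInter fun i => (closed_mac hL c).preimage (by fun_prop)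

theorem meas_G (hL : Body L) (k : ℕ) (c : ℝ) :
    MeasurableSet {p : (Fin (k+1) → E) × E | ∀ i, p.1 i ∈ Mac L p.2 c} :=
  (closed_G hL k c).measurableSet

theorem meas_g (hL : Body L) (N : ℕ) :
    Measurable (fun z => (1 - macP μ L z / 2)^N * (2 * (macP μ L z)⁻¹)) := by
  have h := meas_macP μ hL
  fun_prop

theorem meas_f (hL : Body L) (k : ℕ) (c : ℝ) (N : ℕ) :
    Measurable (fun p : (Fin (k+1) → E) × E =>
      ({p : (Fin (k+1) → E) × E | ∀ i, p.1 i ∈ Mac L p.2 c}.indicator
        (fun _ => (1 : ℝ≥0∞)) p) * ((1 - macP μ L p.2 / 2)^N * (2 * (macP μ L p.2)⁻¹))) := by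
  refine Measurable.mul ?_ ?_
  · exact measurable_const.indicator (meas_G hL k c)
  · exact (meas_g μ hL N).comp measurable_snd

theorem key_aux {k : ℕ} (hcap : S_CAP) (hL : Body L) (hd : 1 ≤ Module.finrank ℝ E) (N : ℕ)
    (x : Fin (k+1) → E) (hxL : ∀ i, x i ∈ L) (hx0 : x 0 ∈ interior L) (l : E →L[ℝ] ℝ)
    (hl : ∃ w, l w ≠ 0) (hlx : ∀ i, l (x i) = l (x 0)) :
    (1 - unif μ L {y | l (x 0) < l y}) ^ N ≤
      ENNReal.ofReal ((2 * Module.finrank ℝ E) ^ Module.finrank ℝ E) *
      ∫⁻ z, ({p : (Fin (k+1) → E) × E | ∀ i, p.1 i ∈ Mac L p.2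
        (2 * Module.finrank ℝ E + 1)}.indicator (fun _ => (1 : ℝ≥0∞)) (x, z)) *
         ((1 - macP μ L z / 2)^N * (2 * (macP μ L z)⁻¹)) ∂(unif μ L) := by
  have hP : IsProbabilityMeasure (unif μ L) := prob μ hL
  set P := unif μ L with hPdef
  set V := P {y | l (x 0) < l y} with hV
  have hlc : Continuous l := l.continuous
  have hV0 : V ≠ 0 := by
    have ho : IsOpen {y | l (x 0) < l y} := isOpen_lt continuous_const hlc
    have hne : ({y | l (x 0) < l y} ∩ interior L).Nonempty := by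
      obtain ⟨w, hw⟩ : ∃ w, 0 < l w := by
        obtain ⟨w, hw⟩ := hl
        rcases lt_or_gt_of_ne hw with h | h
        · exact ⟨-w, by simpa using h⟩
        · exact ⟨w, h⟩
      have hc : Tendsto (fun t : ℝ => x 0 + t • w) (𝓝[>] 0) (𝓝 (x 0)) := by
        have : Continuous (fun t : ℝ => x 0 + t • w) := by fun_prop
        have h2 := this.tendsto 0
        simp only [zero_smul, add_zero] at h2
        exact h2.mono_left nhdsWithin_le_nhds
      have h3 := hc.eventually (isOpen_interior.mem_nhds hx0)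
      obtain ⟨t, ht1, ht2⟩ := (h3.and self_mem_nhdsWithin).exists
      refine ⟨x 0 + t • w, ?_, ht1⟩
      show l (x 0) < l (x 0 + t • w)
      simp only [map_add, map_smul, smul_eq_mul]
      have : 0 < t * l w := mul_pos ht2 hw
      linarith
    have h4 : 0 < μ ({y | l (x 0) < l y} ∩ interior L) :=
      (ho.inter isOpen_interior).measure_pos μ hne
    rw [hV, hPdef, unif_apply μ _ ho.measurableSet]
    refine mul_ne_zero (ENNReal.inv_ne_zero.2 (mu_fin μ hL)) ?_
    exact (h4.trans_le (measure_mono (inter_subset_inter_right _ interior_subset))).ne'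
  have hVt : V ≠ ∞ := measure_ne_top _ _
  have hVe : P {y | l (x 0) ≤ l y} = V := by
    apply le_antisymm
    · have hsub : {y | l (x 0) ≤ l y} ⊆ {y | l (x 0) < l y} ∪ {y | l y = l (x 0)} := by
        intro y hy
        rcases lt_or_eq_of_le (show l (x 0) ≤ l y from hy) with h | h
        · exact Or.inl h
        · exact Or.inr h.symm
      calc P {y | l (x 0) ≤ l y} ≤ P ({y | l (x 0) < l y} ∪ {y | l y = l (x 0)}) := measure_mono hsub
        _ ≤ P {y | l (x 0) < l y} + P {y | l y = l (x 0)} := measure_union_le _ _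
        _ = V := by rw [unif_ac μ (null_hyp μ l hl (x 0)), add_zero]
    · exact measure_mono (fun y (hy : l (x 0) < l y) => (show l (x 0) ≤ l y from hy.le))
  have h1 := hcap E μ L hL hd l (l (x 0))
  rw [← hPdef, hVe] at h1
  set K := ENNReal.ofReal ((2 * Module.finrank ℝ E) ^ Module.finrank ℝ E) with hK
  set Z := {z | (∀ y ∈ L, l (x 0) ≤ l y → y ∈ Mac L z (2 * Module.finrank ℝ E + 1)) ∧
    macP μ L z ≤ 2 * V} with hZ
  set f : E → ℝ≥0∞ := fun z => ({p : (Fin (k+1) → E) × E | ∀ i, p.1 i ∈ Mac L p.2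
        (2 * Module.finrank ℝ E + 1)}.indicator (fun _ => (1 : ℝ≥0∞)) (x, z)) *
         ((1 - macP μ L z / 2)^N * (2 * (macP μ L z)⁻¹)) with hf
  have hfm : Measurable f :=
    (meas_f μ hL k (2 * Module.finrank ℝ E + 1) N).comp measurable_prodMk_left
  have h2 : ∀ z ∈ Z, (1 - V)^N * V⁻¹ ≤ f z := by
    rintro z ⟨hz1, hz2⟩
    have hi : (x, z) ∈ {p : (Fin (k+1) → E) × E | ∀ i, p.1 i ∈ Mac L p.2
        (2 * Module.finrank ℝ E + 1)} := fun i => hz1 (x i) (hxL i) (hlx i).ge
    have h3 : macP μ L z / 2 ≤ V := by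
      apply ENNReal.div_le_of_le_mul
      rw [mul_comm]; exact hz2
    have h4 : V⁻¹ ≤ 2 * (macP μ L z)⁻¹ := by
      have h5 : (2 * V)⁻¹ ≤ (macP μ L z)⁻¹ := ENNReal.inv_le_inv.2 hz2
      calc V⁻¹ = 2 * (2 * V)⁻¹ := by
            rw [ENNReal.mul_inv (by simp) (by simp), ← mul_assoc, ENNReal.mul_inv_cancel (by simp) (by simp),
              one_mul]
        _ ≤ _ := by gcongr
    simp only [hf]
    rw [indicator_of_mem hi, one_mul]
    gcongr
  have h5 : (1 - V)^N * V⁻¹ * P Z ≤ ∫⁻ z, f z ∂P := by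
    calc _ ≤ (1 - V)^N * V⁻¹ * P {z | (1 - V)^N * V⁻¹ ≤ f z} := by
          gcongr; exact fun z hz => h2 z hz
      _ ≤ _ := mul_meas_ge_le_lintegral hfm _
  calc (1 - V)^N = (1 - V)^N * V⁻¹ * V := by rw [mul_assoc, ENNReal.inv_mul_cancel hV0 hVt, mul_one]
    _ ≤ (1 - V)^N * V⁻¹ * (K * P Z) := by gcongr
    _ = K * ((1 - V)^N * V⁻¹ * P Z) := by ring
    _ ≤ K * ∫⁻ z, f z ∂P := by gcongr


theorem finrank_eq {k : ℕ} (b : Module.Basis (Fin (k + 1)) ℝ E) : Module.finrank ℝ E = k + 1 := by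
  rw [Module.finrank_eq_card_basis b]; simp

theorem key {k : ℕ} (hcap : S_CAP) (hL : Body L) (b : Module.Basis (Fin (k + 1)) ℝ E) (N : ℕ)
    (x : Fin (k+1) → E) (hx : AffineIndependent ℝ x) (hxL : ∀ i, x i ∈ L)
    (hx0 : x 0 ∈ interior L) :
    (1 - cutP μ L b x) ^ N ≤
      ENNReal.ofReal ((2 * Module.finrank ℝ E) ^ Module.finrank ℝ E) *
      ∫⁻ z, ({p : (Fin (k+1) → E) × E | ∀ i, p.1 i ∈ Mac L p.2
        (2 * Module.finrank ℝ E + 1)}.indicator (fun _ => (1 : ℝ≥0∞)) (x, z)) *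
         ((1 - macP μ L z / 2)^N * (2 * (macP μ L z)⁻¹)) ∂(unif μ L) := by
  have hd : 1 ≤ Module.finrank ℝ E := by rw [finrank_eq b]; omega
  have hne := lin_ne b x hx
  unfold cutP
  rcases min_choice (unif μ L {y | 0 < side b x y}) (unif μ L {y | side b x y < 0}) with h | h
  · rw [h]
    have h2 : {y | 0 < side b x y} = {y | lin b x (x 0) < lin b x y} := by
      ext y
      show 0 < side b x y ↔ lin b x (x 0) < lin b x y
      rw [side_eq, sub_pos]
    rw [h2]
    exact key_aux μ hcap hL hd N x hxL hx0 (lin b x) hne (lin_pt b x)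
  · rw [h]
    have h2 : {y | side b x y < 0} = {y | (-lin b x) (x 0) < (-lin b x) y} := by
      ext y
      show side b x y < 0 ↔ (-lin b x) (x 0) < (-lin b x) y
      rw [side_eq]
      simp
    rw [h2]
    refine key_aux μ hcap hL hd N x hxL hx0 (-lin b x) ?_ ?_
    · obtain ⟨w, hw⟩ := hne
      exact ⟨w, by simpa using hw⟩
    · intro i
      simp [lin_pt b x i]

theorem ae_prop {k : ℕ} (hgp : S_GP) (hL : Body L) (b : Module.Basis (Fin (k + 1)) ℝ E) :
    ∀ᵐ x ∂(Measure.pi fun _ : Fin (k + 1) => unif μ L),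
      AffineIndependent ℝ x ∧ (∀ i, x i ∈ L) ∧ x 0 ∈ interior L := by
  have hd : 1 ≤ Module.finrank ℝ E := by rw [finrank_eq b]; omega
  have hP : IsProbabilityMeasure (unif μ L) := prob μ hL
  have h0 : ∀ᵐ z ∂(unif μ L), z ∈ interior L := by
    have h1 : ∀ᵐ z ∂(unif μ L), z ∈ L := by
      unfold unif
      apply Measure.ae_smul_measure
      exact ae_restrict_mem hL.compact.isClosed.measurableSet
    have h2 : ∀ᵐ z ∂(unif μ L), z ∉ frontier L := by
      rw [ae_iff]
      simp only [not_not]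
      exact unif_ac μ (hL.convex.addHaar_frontier μ)
    filter_upwards [h1, h2] with z hz1 hz2
    by_contra h3
    exact hz2 ⟨subset_closure hz1, h3⟩
  have h1 : ∀ᵐ x ∂(Measure.pi fun _ : Fin (k + 1) => unif μ L), ∀ i, x i ∈ interior L := by
    rw [ae_all_iff]
    intro i
    exact (Measure.tendsto_eval_ae_ae (μ := fun _ : Fin (k+1) => unif μ L) (i := i)) h0
  filter_upwards [h1, hgp E μ L hL hd (k + 1)] with x hx1 hx2
  refine ⟨?_, fun i => interior_subset (hx1 i), hx1 0⟩
  have h3 := hx2 Finset.univ (by rw [finrank_eq b]; simp)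
  have h4 := h3.comp_embedding (f := (⟨fun i => ⟨i, Finset.mem_univ i⟩, fun i j hij => by simpa using hij⟩ : Fin (k+1) ↪ (Finset.univ : Finset (Fin (k+1)))))
  exact h4

end basics


end MacAux

open MacAux in
theorem mac : S_GP → S_CAP → S_MAC := by
  intro hgp hcap E _ _ _ _ _ μ _ L hL k b N
  have hP : IsProbabilityMeasure (unif μ L) := prob μ hL
  have hfr := finrank_eq b
  set d := Module.finrank ℝ E with hd
  set g : E → ℝ≥0∞ := fun z => (1 - macP μ L z / 2)^N * (2 * (macP μ L z)⁻¹) with hg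
  set G := {p : (Fin (k+1) → E) × E | ∀ i, p.1 i ∈ Mac L p.2 (2 * d + 1)} with hG
  set F : (Fin (k+1) → E) × E → ℝ≥0∞ := fun p => G.indicator (fun _ => (1 : ℝ≥0∞)) p * g p.2 with hF
  have hFm : Measurable F := meas_f μ hL k (2 * d + 1) N
  have h1 : ∫⁻ x, (1 - cutP μ L b x) ^ N ∂(Measure.pi fun _ : Fin (k + 1) => unif μ L) ≤
      ENNReal.ofReal ((2 * d) ^ d) * ∫⁻ z, ∫⁻ x, F (x, z) ∂(Measure.pi fun _ : Fin (k + 1) => unif μ L)
        ∂(unif μ L) := by
    calc ∫⁻ x, (1 - cutP μ L b x) ^ N ∂(Measure.pi fun _ : Fin (k + 1) => unif μ L)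
        ≤ ∫⁻ x, (ENNReal.ofReal ((2 * d) ^ d) * ∫⁻ z, F (x, z) ∂(unif μ L))
            ∂(Measure.pi fun _ : Fin (k + 1) => unif μ L) := by
          apply lintegral_mono_ae
          filter_upwards [ae_prop μ hgp hL b] with x hx
          exact key μ hcap hL b N x hx.1 hx.2.1 hx.2.2
      _ = ENNReal.ofReal ((2 * d) ^ d) * ∫⁻ x, ∫⁻ z, F (x, z) ∂(unif μ L)
            ∂(Measure.pi fun _ : Fin (k + 1) => unif μ L) := by
          rw [lintegral_const_mul]
          exact hFm.lintegral_prod_right'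
      _ = _ := by
          rw [lintegral_lintegral_swap hFm.aemeasurable]
  have h2 : ∀ z, ∫⁻ x, F (x, z) ∂(Measure.pi fun _ : Fin (k + 1) => unif μ L) ≤
      ENNReal.ofReal (2 * (2 * k + 3) ^ ((k + 1) * (k + 1))) *
        ((macP μ L z) ^ k * (1 - macP μ L z / 2) ^ N) := by
    intro z
    have h3 : ∫⁻ x, F (x, z) ∂(Measure.pi fun _ : Fin (k + 1) => unif μ L) =
        (unif μ L (Mac L z (2 * d + 1))) ^ (k + 1) * g z := by
      have h4 : ∀ x : Fin (k+1) → E, F (x, z) =
          ((Set.pi univ (fun _ : Fin (k+1) => Mac L z (2 * d + 1))).indicator (fun _ => (1 : ℝ≥0∞)) x) * g z := by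
        intro x
        simp only [hF]
        congr 1
        by_cases hx : ∀ i, x i ∈ Mac L z (2 * d + 1)
        · rw [indicator_of_mem (show (x, z) ∈ G from hx), indicator_of_mem (show x ∈ Set.pi univ _ from fun i _ => hx i)]
        · rw [indicator_of_notMem (show (x, z) ∉ G from hx), indicator_of_notMem (show x ∉ Set.pi univ (fun _ : Fin (k+1) => Mac L z (2 * d + 1)) from fun h => hx (fun i => h i (mem_univ i)))]
      simp_rw [h4]
      rw [lintegral_mul_const _ (measurable_const.indicator (MeasurableSet.univ_pi (fun _ => meas_mac hL z _))),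
        lintegral_indicator_const (MeasurableSet.univ_pi (fun _ => meas_mac hL z _)), Measure.pi_pi]
      simp
    rw [h3]
    have h5 := unif_mac_le μ hL z (2 * d + 1) (by positivity)
    have h6 : (macP μ L z) ^ (k + 1) * (macP μ L z)⁻¹ ≤ (macP μ L z) ^ k := by
      rw [pow_succ, mul_assoc]
      calc (macP μ L z) ^ k * (macP μ L z * (macP μ L z)⁻¹) ≤ (macP μ L z) ^ k * 1 := by
            gcongr; exact ENNReal.mul_inv_le_one _
        _ = _ := mul_one _
    calc (unif μ L (Mac L z (2 * d + 1))) ^ (k + 1) * g z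
        ≤ (ENNReal.ofReal ((2 * d + 1) ^ d) * macP μ L z) ^ (k + 1) * g z := by gcongr
      _ = ENNReal.ofReal ((2 * d + 1) ^ d) ^ (k + 1) * 2 * (((macP μ L z) ^ (k + 1) * (macP μ L z)⁻¹) *
            (1 - macP μ L z / 2) ^ N) := by simp only [hg]; ring
      _ ≤ ENNReal.ofReal ((2 * d + 1) ^ d) ^ (k + 1) * 2 * ((macP μ L z) ^ k *
            (1 - macP μ L z / 2) ^ N) := by gcongr
      _ = _ := by
          congr 1
          rw [← ENNReal.ofReal_pow (by positivity), ← pow_mul, hfr, mul_comm,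
            show (2 : ℝ≥0∞) = ENNReal.ofReal 2 by simp, ← ENNReal.ofReal_mul (by norm_num)]
          congr 2
          push_cast
          ring
  calc ∫⁻ x, (1 - cutP μ L b x) ^ N ∂(Measure.pi fun _ : Fin (k + 1) => unif μ L)
      ≤ ENNReal.ofReal ((2 * d) ^ d) * ∫⁻ z, ∫⁻ x, F (x, z) ∂(Measure.pi fun _ : Fin (k + 1) => unif μ L)
        ∂(unif μ L) := h1
    _ ≤ ENNReal.ofReal ((2 * d) ^ d) * ∫⁻ z, ENNReal.ofReal (2 * (2 * k + 3) ^ ((k + 1) * (k + 1))) *
        ((macP μ L z) ^ k * (1 - macP μ L z / 2) ^ N) ∂(unif μ L) := by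
        gcongr with z
        exact h2 z
    _ = _ := by
        rw [lintegral_const_mul, ← mul_assoc, ← ENNReal.ofReal_mul (by positivity)]
        · congr 2
          rw [hfr]
          push_cast
          ring
        · have h := meas_macP μ hL
          fun_prop

end Pool.Agent.W712.RP
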