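import Pool.Agent.W686.RP.Mac

set_option autoImplicit false

open MeasureTheory Set Filter Topology
open scoped ENNReal

namespace Pool.Agent.W712.RP

theorem pu : S_U → S_WU → S_PR → S_PU := by
  intro hU hWU hPR m d hd K hK
  obtain ⟨-, -, hprob, hunif, hmac⟩ := hPR m d K hK
  have hC : ∀ i, ∃ C : ℝ, 1 ≤ C ∧ ∀ s : ℝ, 0 < s →
    unif volume (K i) {z | (macP volume (K i) z).toReal ≤ s} ≤
      ENNReal.ofReal (C * s ^ (2 / ((d i : ℝ) + 1))) := fun i => hU (d i) (hd i) (K i) (hK i)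
  choose C hC1 hC2 using hC
  set C₀ : ℝ := 1 + ∑ i, C i with hC₀
  have hCpos : ∀ i, 0 ≤ C i := fun i => zero_le_one.trans (hC1 i)
  have hC₀1 : 1 ≤ C₀ := by
    have : 0 ≤ ∑ i, C i := Finset.sum_nonneg fun i _ => hCpos i
    linarith
  have hCle : ∀ i, C i ≤ C₀ := by
    intro i
    have : C i ≤ ∑ i, C i := Finset.single_le_sum (f := C) (fun j _ => hCpos j) (Finset.mem_univ i)
    linarith
  refine ⟨C₀ ^ m, by positivity, ?_⟩
  intro t ht
  have h1 : {z | (macP volume (prodBody K) z).toReal ≤ t} =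
      {ω : ∀ i, EuclideanSpace ℝ (Fin (d i)) | ∏ i, (macP volume (K i) (ω i)).toReal ≤ t} := by
    ext z
    show (macP volume (prodBody K) z).toReal ≤ t ↔ ∏ i, (macP volume (K i) (z i)).toReal ≤ t
    rw [hmac z, ENNReal.toReal_prod]
  rw [h1, hunif]
  have := hprob
  refine hWU m (fun i => EuclideanSpace ℝ (Fin (d i))) (fun i => unif volume (K i))
    (fun i z => (macP volume (K i) z).toReal) ?_ ?_ (fun i => 2 / ((d i : ℝ) + 1)) ?_ C₀ hC₀1 ?_ t ht
  · intro i
    exact (MacAux.meas_macP (volume : Measure (EuclideanSpace ℝ (Fin (d i)))) (hK i)).ennreal_toReal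
  · intro i z
    exact ENNReal.toReal_nonneg
  · intro i
    positivity
  · intro i s hs
    refine (hC2 i s hs).trans (ENNReal.ofReal_le_ofReal ?_)
    have : 0 ≤ s ^ (2 / ((d i : ℝ) + 1)) := by positivity
    exact mul_le_mul_of_nonneg_right (hCle i) this

end Pool.Agent.W712.RP
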